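import Pool.Agent.Lib.MP_2543de_nt.Full.Range

/-!
The range lemma with fourteen pairs.
-/

namespace Pool.Agent.MP_2543de_nt.Least

open Finset Full

lemma finish14 {x δ E X0 η c3 K Y C D : ℝ} (hD : 0 < D)
    (hK : 3 * x ^ 4 / (2 * D) ≤ K) (hY : Y ≤ 1.0001 * x ^ 3) (hδ : 0 < δ) (hE : 0 ≤ E)
    (hX : X0 ≤ x) (hX0 : 0 < X0) (hη : η ≤ 3 * X0 * δ / (2 * D) - 1.0001 * E) (hη0 : 0 < η)
    (hf : c3 + 13 < X0 ^ 3 * η) (hC : K * δ - c3 - Y * E ≤ C) : 13 < C := by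
  have h := finish (C := C - 13) (c3 := c3 + 13) hD hK hY hδ hE hX hX0 hη hη0 hf (by linarith)
  linarith

lemma ge_of_cast {C : ℕ} (h : (13 : ℝ) < C) : 14 ≤ C := by
  have : 13 < C := by exact_mod_cast h
  omega

/-- The range lemma. -/
lemma range_piece14 (a b y z t : ℕ) (ha : 17 ≤ a) (hy : 3 ≤ y) (hyz : y ≤ z) (hz : 53 ≤ z)
    (hzt : z ≤ 210 * t) (ht : 210 * t ≤ 2 ^ 25) {g s2 s1 ℓ δ E X0 η : ℝ} {c : ℕ}
    (hg : g * (pr pb y 0 (z - y) : ℝ) ≤ (pr pb y 2 (z - y) : ℝ))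
    (hc : cn pb y (z - y) ≤ c)
    (hs2 : (hs2 pb z (210 * t - z) : ℝ) / 10 ^ 12 +
      8 / 35 * (1 / ((210 * t : ℕ) : ℝ)) + 53 / 35 * (1 / ((210 * t + 1 : ℕ) : ℝ) ^ 2) ≤ s2)
    (hs1 : (hs pb z (210 * t - z) : ℝ) / 10 ^ 9 +
      8 / 35 * (0 - Real.log ((210 * t : ℕ) : ℝ)) +
      53 / 35 * (1 / ((210 * t + 1 : ℕ) : ℝ)) ≤ s1)
    (hs20 : 0 ≤ s2)
    (hDa : Dz y + 1 ≤ 2 ^ a)
    (hℓ : 3 / 2 * (b * 0.6931472) + 0.0001 ≤ ℓ)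
    (hδ : δ ≤ g - 2 * (16 / 35 * ℓ - 0.4622) * s2) (hδ0 : 0 < δ)
    (hE : 16 / 35 * (247 / 70) + 32 / 35 * (s1 + 8 / 35 * ℓ) ≤ E) (hE0 : 0 ≤ E)
    (hX0 : 0 < X0) (hXa : X0 ^ 2 ≤ 2 ^ a)
    (hη : η ≤ 3 * X0 * δ / (2 * (Dz y : ℝ)) - 1.0001 * E) (hη0 : 0 < η)
    (hf : 3 ^ c + 27 < X0 ^ 3 * η) :
    ∀ n, 2 ^ a ≤ n → n < 2 ^ b → 14 ≤ cousinCount n := by
  intro n hn1 hn2
  have hn17 : 2 ^ 17 ≤ n := le_trans (Nat.pow_le_pow_right (by norm_num) ha) hn1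
  obtain ⟨Y, hY1, hY2, hY3, hY4, hY5⟩ := exists_Y hn17
  have hD9 : 9 ≤ Dz y := Dz_pos y
  have hDr : (0 : ℝ) < (Dz y : ℝ) := by exact_mod_cast (by omega : 0 < Dz y)
  have hn0 : (0 : ℝ) < n := by
    have : 0 < n := lt_of_lt_of_le (by norm_num) hn17
    exact_mod_cast this
  have hlog : Real.log Y ≤ ℓ := by
    have h1 : (n : ℝ) ≤ 2 ^ b := by exact_mod_cast hn2.le
    have h2 := Real.log_le_log hn0 h1
    rw [Real.log_pow] at h2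
    have h3 := Real.log_two_lt_d9
    have h4 : (b : ℝ) * Real.log 2 ≤ b * 0.6931472 := by
      apply mul_le_mul_of_nonneg_left _ (Nat.cast_nonneg b)
      linarith
    linarith
  have hlow := lower_config n y z t Y hy hyz hz hzt hY1 hY4 (ht.trans hY5) hg hc hs2 hs1
  have hx2 : (Real.sqrt n) ^ 2 = n := Real.sq_sqrt hn0.le
  have hx4 : (Real.sqrt n) ^ 4 = (n : ℝ) ^ 2 := by
    calc (Real.sqrt n) ^ 4 = ((Real.sqrt n) ^ 2) ^ 2 := by ring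
      _ = _ := by rw [hx2]
  have hK := K_ge (n := n) hD9 (hDa.trans hn1)
  have hK0 : (0 : ℝ) ≤ (((3 * n ^ 2 + 3 * n - Dz y - 2) / (2 * Dz y) : ℕ) : ℝ) := Nat.cast_nonneg _
  have hY0 : (0 : ℝ) ≤ Y := Nat.cast_nonneg _
  have hδ' : δ ≤ g - 2 * H Y * s2 := by
    have hH : H Y ≤ 16 / 35 * ℓ - 0.4622 := by unfold H; linarith
    have := mul_le_mul_of_nonneg_right hH hs20
    linarith
  have hE' : 16 / 35 * (247 / 70) + 32 / 35 * (s1 + 8 / 35 * Real.log Y) ≤ E := by linarith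
  have m1 := mul_le_mul_of_nonneg_left hδ' hK0
  have m2 := mul_le_mul_of_nonneg_left hE' hY0
  have hX : X0 ≤ Real.sqrt n := by
    apply Real.le_sqrt_of_sq_le
    refine hXa.trans ?_
    exact_mod_cast hn1
  have hK' : 3 * (Real.sqrt n) ^ 4 / (2 * (Dz y : ℝ)) ≤
      (((3 * n ^ 2 + 3 * n - Dz y - 2) / (2 * Dz y) : ℕ) : ℝ) := by rw [hx4]; exact hK
  apply ge_of_cast
  refine finish14 (x := Real.sqrt n) (c3 := 3 ^ c + 14) hDr hK' hY2 hδ0 hE0 hX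
    hX0 hη hη0 (by linarith) ?_
  linarith

end Pool.Agent.MP_2543de_nt.Least
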