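import Pool.Agent.Lib.MP_2543de_nt.Full.Symbolic
import Pool.Agent.Lib.MP_2543de_nt.Least.Range

/-!
Large `n`, with fourteen pairs.
-/

namespace Pool.Agent.MP_2543de_nt.Least

open Finset Full

/-- The final inequality for large `n`. -/
lemma large_final {m x K Y C L Hy S1 S2 : ℝ} {e : ℕ} (hm : 58 ≤ m)
    (hK' : 3 * x ^ 4 / (2 * (9 * 2 ^ e : ℝ)) ≤ K) (hK0 : 0 ≤ K)
    (hY2 : Y ≤ 1.0001 * x ^ 3) (hY0 : 0 ≤ Y)
    (hX : (2 : ℝ) ^ e * (1000 * m + 2000) ≤ x)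
    (hdens : 2 * (Hy * S2) ≤ 0.96) (hB : S1 ≤ 8 / 35 * L + 1) (hlog : L ≤ 26 * (m + 1))
    (hlow : K - 1 - 2 * (K * Hy * S2 + (8 / 35 * (247 / 70) * Y + 16 / 35 * Y * S1 + 7)) ≤ C) :
    13 < C := by
  have hm0 : 0 < m := by linarith
  have hX0 : (0 : ℝ) < 2 ^ e * (1000 * m + 2000) := by positivity
  refine finish14 (D := 9 * 2 ^ e) (x := x) (δ := 0.04) (E := 5.5 * m + 9) (η := 1) (c3 := 15)
    (X0 := 2 ^ e * (1000 * m + 2000)) (by positivity) hK' hY2 (by norm_num) (by positivity) hX hX0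
    ?_ one_pos ?_ ?_
  · have h1 : 3 * ((2 : ℝ) ^ e * (1000 * m + 2000)) * 0.04 / (2 * (9 * 2 ^ e)) =
        (1000 * m + 2000) / 150 := by
      field_simp
      ring
    rw [h1]
    linarith
  · have h1 : (1 : ℝ) ≤ 2 ^ e := one_le_pow₀ (by norm_num)
    have h2 : (2000 : ℝ) ≤ 2 ^ e * (1000 * m + 2000) := by nlinarith
    have h3 : (2000 : ℝ) ^ 3 ≤ (2 ^ e * (1000 * m + 2000)) ^ 3 :=
      pow_le_pow_left₀ (by norm_num) h2 3
    rw [mul_one]
    exact lt_of_lt_of_le (by norm_num) h3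
  · have m1 := mul_le_mul_of_nonneg_left hdens hK0
    have m3 := mul_le_mul_of_nonneg_left hB hY0
    have m4 := mul_le_mul_of_nonneg_left hlog hY0
    have m5 : 0 ≤ Y * m := by positivity
    have m6 : K * (2 * (Hy * S2)) = 2 * (K * Hy * S2) := by ring
    rw [m6] at m1
    linarith

/-- The range of large `n`. -/
lemma large_piece (m : ℕ) (hm : 58 ≤ m) (n : ℕ) (hn1 : 2 ^ (25 * m) ≤ n)
    (hn2 : n < 2 ^ (25 * (m + 1))) : 14 ≤ cousinCount n := by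
  have hn17 : 2 ^ 17 ≤ n := le_trans (Nat.pow_le_pow_right (by norm_num) (by omega)) hn1
  obtain ⟨Y, hY1, hY2, hY3, hY4, hY5⟩ := exists_Y hn17
  have hn0 : (0 : ℝ) < n := by
    have : 0 < n := lt_of_lt_of_le (by norm_num) hn17
    exact_mod_cast this
  have hmr : (58 : ℝ) ≤ m := by exact_mod_cast hm
  have hlog := log_Y_le hn0 hn2 hY3
  have hpow : (4 : ℕ) ^ (6 * m) = 2 ^ (12 * m) := by
    rw [show (4 : ℕ) = 2 ^ 2 by norm_num, ← pow_mul]; ring_nf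
  have hDle : Dz (6 * m) ≤ 9 * 2 ^ (12 * m) := by rw [← hpow]; exact Dz_le _
  have hD9 := Dz_pos (6 * m)
  have h9D := nine_dvd_Dz (6 * m)
  have hDodd := Dz_odd (6 * m)
  have hDdvd := prime_dvd_Dz (6 * m)
  generalize Dz (6 * m) = D at hDle hD9 h9D hDodd hDdvd
  have hDn := D_lt_n hm hDle hn1
  have hlow := lower_full n (6 * m) Y D ∅ h9D hDodd (by omega)
    (by simp) (by simp) (fun p hp hpz => Or.inl (hDdvd p hp hpz)) hY1 hY4
  rw [Finset.prod_empty, Finset.card_empty, mul_one, pow_zero] at hlow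
  have hK := K_ge (n := n) hD9 hDn
  have hD0 : (0 : ℝ) < D := by exact_mod_cast (by omega : 0 < D)
  have hK0 : (0 : ℝ) ≤ (((3 * n ^ 2 + 3 * n - D - 2) / (2 * D) : ℕ) : ℝ) := Nat.cast_nonneg _
  generalize (((3 * n ^ 2 + 3 * n - D - 2) / (2 * D) : ℕ) : ℝ) = K at hK hK0 hlow
  have hY0 : (0 : ℝ) ≤ Y := Nat.cast_nonneg _
  have hB := Pr_inv_le' (z := 6 * m) (Y := Y) (by omega) (z_le_Y (z_lt_n hn1) hY1)
  have hH0 : 0 ≤ H Y := by unfold H; linarith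
  have hH : H Y ≤ 11.8858 * (m + 1) := by unfold H; linarith
  have hs2 := s2_symb Y hm
  have hdens := density hmr hH hs2 (S2_nonneg (6 * m) Y)
  have hDD : (D : ℝ) ≤ 9 * 2 ^ (12 * m) := by exact_mod_cast hDle
  have hK' := K_ge' (e := 12 * m) (sqrt_four hn0) hD0 hDD hK
  apply ge_of_cast
  exact large_final (e := 12 * m) hmr hK' hK0 hY2 hY0 (X0_le hm hn1) hdens hB hlog hlow

/-- All `n ≥ 2^1450`. -/
lemma large (n : ℕ) (hn : 2 ^ 1450 ≤ n) : 14 ≤ cousinCount n := by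
  have hn0 : n ≠ 0 := by
    have : 0 < 2 ^ 1450 := Nat.two_pow_pos 1450
    omega
  have h1 : 1450 ≤ Nat.log 2 n := (Nat.le_log_iff_pow_le (by norm_num) hn0).2 hn
  apply large_piece (Nat.log 2 n / 25) (by omega) n
  · exact le_trans (Nat.pow_le_pow_right (by norm_num) (Nat.mul_div_le _ _))
      (Nat.pow_log_le_self 2 hn0)
  · refine lt_of_lt_of_le (Nat.lt_pow_succ_log_self (b := 2) (by norm_num) n) ?_
    apply Nat.pow_le_pow_right (by norm_num)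
    omega

end Pool.Agent.MP_2543de_nt.Least
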