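import Pool.Agent.Lib.MP_2543de_nt.Least.Small
import Pool.Agent.Lib.MP_2543de_nt.Least.E1
import Pool.Agent.Lib.MP_2543de_nt.Least.E2
import Pool.Agent.Lib.MP_2543de_nt.Least.E3
import Pool.Agent.Lib.MP_2543de_nt.Least.E4
import Pool.Agent.Lib.MP_2543de_nt.Least.Pieces
import Pool.Agent.Lib.MP_2543de_nt.Least.Symbolic

/-!
`C(n) ≥ 14` for every `n ≥ 6`.
-/

namespace Pool.Agent.MP_2543de_nt.Least

open Full

lemma data_cases (n : ℕ) (h1 : 102 ≤ n) (h2 : n < 131174) : 14 ≤ cousinCount n := by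
  rcases Nat.lt_or_ge n 8294 with a1 | a1
  · exact rng01 n h1 a1
  rcases Nat.lt_or_ge n 16486 with a2 | a2
  · exact rng02 n a1 a2
  rcases Nat.lt_or_ge n 24678 with a3 | a3
  · exact rng03 n a2 a3
  rcases Nat.lt_or_ge n 32870 with a4 | a4
  · exact rng04 n a3 a4
  rcases Nat.lt_or_ge n 41062 with a5 | a5
  · exact rng05 n a4 a5
  rcases Nat.lt_or_ge n 49254 with a6 | a6
  · exact rng06 n a5 a6
  rcases Nat.lt_or_ge n 57446 with a7 | a7
  · exact rng07 n a6 a7
  rcases Nat.lt_or_ge n 65638 with a8 | a8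
  · exact rng08 n a7 a8
  rcases Nat.lt_or_ge n 73830 with a9 | a9
  · exact rng09 n a8 a9
  rcases Nat.lt_or_ge n 82022 with a10 | a10
  · exact rng10 n a9 a10
  rcases Nat.lt_or_ge n 90214 with a11 | a11
  · exact rng11 n a10 a11
  rcases Nat.lt_or_ge n 98406 with a12 | a12
  · exact rng12 n a11 a12
  rcases Nat.lt_or_ge n 106598 with a13 | a13
  · exact rng13 n a12 a13
  rcases Nat.lt_or_ge n 114790 with a14 | a14
  · exact rng14 n a13 a14
  rcases Nat.lt_or_ge n 122982 with a15 | a15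
  · exact rng15 n a14 a15
  exact rng16 n a15 h2

/-- `C(n) ≥ 14` for every `n ≥ 6`. -/
theorem fourteen_le_cousinCount (n : ℕ) (hn : 6 ≤ n) : 14 ≤ cousinCount n := by
  rcases Nat.lt_or_ge n 12 with h | h
  · exact tiny n hn h
  rcases Nat.lt_or_ge n 35 with h0 | h0
  · exact small34 n h h0
  rcases Nat.lt_or_ge n 102 with h00 | h00
  · exact small101 n h0 h00
  rcases Nat.lt_or_ge n 131174 with h1 | h1
  · exact data_cases n h00 h1
  have h17 : 2 ^ 17 ≤ n := by
    have : (2 : ℕ) ^ 17 = 131072 := by norm_num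
    omega
  rcases Nat.lt_or_ge n (2 ^ 19) with h2 | h2
  · exact piece1 n h17 h2
  rcases Nat.lt_or_ge n (2 ^ 27) with h3 | h3
  · exact piece2 n h2 h3
  rcases Nat.lt_or_ge n (2 ^ 42) with h4 | h4
  · exact piece3 n h3 h4
  rcases Nat.lt_or_ge n (2 ^ 95) with h5 | h5
  · exact piece4 n h4 h5
  rcases Nat.lt_or_ge n (2 ^ 240) with h6 | h6
  · exact piece5 n h5 h6
  rcases Nat.lt_or_ge n (2 ^ 450) with h7 | h7
  · exact piece6 n h6 h7
  rcases Nat.lt_or_ge n (2 ^ 935) with h8 | h8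
  · exact piece7 n h7 h8
  rcases Nat.lt_or_ge n (2 ^ 1500) with h9 | h9
  · exact piece8 n h8 h9
  · exact large n (le_trans (Nat.pow_le_pow_right (by norm_num) (by norm_num)) h9)

/-- `C(n) ≥ 8` for every `n ≥ 4`. -/
theorem eight_le_cousinCount (n : ℕ) (hn : 4 ≤ n) : 8 ≤ cousinCount n := by
  rcases Nat.lt_or_ge n 6 with h | h
  · interval_cases n
    · exact count_four
    · exact count_five.ge
  · exact le_trans (by norm_num) (fourteen_le_cousinCount n h)

/-- `C(n) ≥ 3` for every `n ≥ 3`. -/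
theorem three_le_cousinCount (n : ℕ) (hn : 3 ≤ n) : 3 ≤ cousinCount n := by
  rcases Nat.lt_or_ge n 4 with h | h
  · have : n = 3 := by omega
    subst this
    exact count_three.ge
  · exact le_trans (by norm_num) (eight_le_cousinCount n h)

/-- `C(n) ≥ 1` for every `n ≥ 2`. -/
theorem one_le_cousinCount (n : ℕ) (hn : 2 ≤ n) : 1 ≤ cousinCount n := by
  rcases Nat.lt_or_ge n 3 with h | h
  · have : n = 2 := by omega
    subst this
    exact count_two.ge
  · exact le_trans (by norm_num) (three_le_cousinCount n h)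

lemma isLeast_of {k N a : ℕ} (h1 : ∀ n, N + 1 ≤ n → a ≤ cousinCount n) (h2 : k ≤ a)
    (h3 : cousinCount N < k) : IsLeast {M : ℕ | ∀ n, M ≤ n → k ≤ cousinCount n} (N + 1) := by
  refine ⟨fun n hn => h2.trans (h1 n hn), fun M hM => ?_⟩
  by_contra hlt
  have := hM N (by omega)
  omega

theorem least_values :
    IsLeast {N : ℕ | ∀ n, N ≤ n → 1 ≤ cousinCount n} 2 ∧
    (∀ k, 2 ≤ k → k ≤ 3 → IsLeast {N : ℕ | ∀ n, N ≤ n → k ≤ cousinCount n} 3) ∧
    (∀ k, 4 ≤ k → k ≤ 8 → IsLeast {N : ℕ | ∀ n, N ≤ n → k ≤ cousinCount n} 4) ∧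
    (∀ k, 9 ≤ k → k ≤ 14 → IsLeast {N : ℕ | ∀ n, N ≤ n → k ≤ cousinCount n} 6) := by
  refine ⟨?_, fun k h1 h2 => ?_, fun k h1 h2 => ?_, fun k h1 h2 => ?_⟩
  · exact isLeast_of one_le_cousinCount (le_refl 1) (by rw [count_one]; omega)
  · exact isLeast_of three_le_cousinCount h2 (by rw [count_two]; omega)
  · exact isLeast_of eight_le_cousinCount h2 (by rw [count_three]; omega)
  · exact isLeast_of fourteen_le_cousinCount h2 (by rw [count_five]; omega)

end Pool.Agent.MP_2543de_nt.Least
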