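import Pool.Agent.Lib.MP_2543de_nt.Full.PartsCheck

/-!
Batch certificates: fourteen pairs `(c, c + 4)` with `c % 18 = 7` between `n^3` and `(n+1)^3`.
Every number tested is a prime or a product of two primes; the numbers of one `n` are tested
together, with the remainder of the product of the small primes modulo the product of all of them.
-/

namespace Pool.Agent.MP_2543de_nt.Least

open Finset Full

/-- the next number, from the last digit of `d` in base `4096` -/
noncomputable def nx (c d : ℕ) : ℕ := Nat.add c (Nat.mul 18 (Nat.succ (Nat.mod d 4096)))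

/-- the product of the numbers -/
noncomputable def pas1 (k : ℕ) : ℕ → ℕ → ℕ → ℕ :=
  Nat.rec (fun _ _ M => M) (fun _ ih c d M =>
    ih (nx c d) (Nat.div d 4096) (Nat.mul M (Nat.mul c (Nat.add c 4)))) k

/-- the final test -/
noncomputable def fin (T b1 b2 N c L1 L2 Q W : ℕ) : Bool :=
  band (Nat.beq (Nat.gcd T Q) 1) (band (Nat.beq (Nat.gcd Q W) 1)
    (band (Nat.ble c N) (band (Nat.ble L1 b1) (Nat.ble L2 b2))))

/-- the second pass: `L1` collects the small parts, `L2` the cofactors, `Q` is the product of the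
small parts, `W` the product of the numbers `p (p - 1)` over the cofactors `p` -/
noncomputable def pas2 (T b1 b2 N R k : ℕ) : ℕ → ℕ → ℕ → ℕ → ℕ → ℕ → Bool :=
  Nat.rec (fun c _ L1 L2 Q W => fin T b1 b2 N c L1 L2 Q W) (fun _ ih c d L1 L2 Q W =>
    ih (nx c d) (Nat.div d 4096)
      (Nat.lor L1 (Nat.lor (Nat.gcd R c) (Nat.gcd R (Nat.add c 4))))
      (Nat.lor L2 (Nat.lor (Nat.div c (Nat.gcd R c))
        (Nat.div (Nat.add c 4) (Nat.gcd R (Nat.add c 4)))))
      (Nat.mul Q (Nat.mul (Nat.gcd R c) (Nat.gcd R (Nat.add c 4))))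
      (Nat.mul W (Nat.mul
        (Nat.mul (Nat.div c (Nat.gcd R c)) (Nat.sub (Nat.div c (Nat.gcd R c)) 1))
        (Nat.mul (Nat.div (Nat.add c 4) (Nat.gcd R (Nat.add c 4)))
          (Nat.sub (Nat.div (Nat.add c 4) (Nat.gcd R (Nat.add c 4))) 1))))) k

/-- the test with the first number `c` -/
noncomputable def one' (T b1 b2 P N c d : ℕ) : Bool :=
  pas2 T b1 b2 N (Nat.mod P (pas1 14 c d 1)) 14 c d 0 0 1 1

/-- the test for `n`, with the digits of `r` -/
noncomputable def one (T b1 b2 P n r : ℕ) : Bool :=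
  force (Nat.mul n (Nat.mul n n)) (fun t =>
    one' T b1 b2 P (Nat.pow (Nat.succ n) 3)
      (Nat.add (Nat.add t (Nat.add 1 (Nat.mod (Nat.add 6 (Nat.mul 17 t)) 18)))
        (Nat.mul 18 (Nat.mod r 4096))) (Nat.div r 4096))

/-- the tests for `k` consecutive `n`, with the digits of `d` in base `2^168` -/
noncomputable def many (T b1 b2 P k : ℕ) : ℕ → ℕ → Bool :=
  Nat.rec (fun _ _ => true) (fun _ ih n d =>
    band (one T b1 b2 P n (Nat.mod d 374144419156711147060143317175368453031918731001856))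
     (ih (Nat.succ n) (Nat.div d 374144419156711147060143317175368453031918731001856))) k

/-- the tests for a list -/
noncomputable def mlist (T b1 b2 P k : ℕ) (L : List ℕ) : ℕ → Bool :=
  List.rec (fun _ => true) (fun d _ ih n =>
    band (many T b1 b2 P k n d) (force (Nat.add n k) ih)) L

/-- the numbers of the sequence -/
noncomputable def el : ℕ → ℕ → ℕ → ℕ
  | c, _, 0 => c
  | c, d, (i + 1) => el (nx c d) (d / 4096) i

lemma nx_eq (c d : ℕ) : nx c d = c + 18 * (d % 4096 + 1) := rfl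

lemma el_zero (c d : ℕ) : el c d 0 = c := rfl
lemma el_succ (c d i : ℕ) : el c d (i + 1) = el (nx c d) (d / 4096) i := rfl

lemma el_lt : ∀ i c d, el c d i < el c d (i + 1) := by
  intro i
  induction i with
  | zero => intro c d; rw [el_succ, el_zero, el_zero, nx_eq]; omega
  | succ i ih => intro c d; rw [el_succ c d i, el_succ c d (i + 1)]; exact ih _ _

lemma el_strictMono (c d : ℕ) : StrictMono (el c d) := strictMono_nat_of_lt_succ (fun i => el_lt i c d)

lemma el_mod : ∀ i c d, el c d i % 18 = c % 18 := by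
  intro i
  induction i with
  | zero => intro c d; rfl
  | succ i ih => intro c d; rw [el_succ, ih, nx_eq]; omega

lemma pas1_spec : ∀ k c d M, M ∣ pas1 k c d M ∧
    ∀ i < k, el c d i * (el c d i + 4) ∣ pas1 k c d M := by
  intro k
  induction k with
  | zero => intro c d M; exact ⟨dvd_refl M, fun i hi => absurd hi (Nat.not_lt_zero _)⟩
  | succ k ih =>
    intro c d M
    have e : pas1 (k + 1) c d M = pas1 k (nx c d) (d / 4096) (M * (c * (c + 4))) := rfl
    rw [e]
    obtain ⟨h1, h2⟩ := ih (nx c d) (d / 4096) (M * (c * (c + 4)))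
    refine ⟨(dvd_mul_right _ _).trans h1, ?_⟩
    intro i hi
    cases i with
    | zero => exact (dvd_mul_left _ _).trans h1
    | succ i => exact h2 i (by omega)

/-- what the second pass shows for a number -/
def Good (R F1 F2 FQ FW x : ℕ) : Prop :=
  Nat.gcd R x ≤ F1 ∧ x / Nat.gcd R x ≤ F2 ∧ Nat.gcd R x ∣ FQ ∧
    (x / Nat.gcd R x) * (x / Nat.gcd R x - 1) ∣ FW

/-- what the final test shows -/
def Fin (T b1 b2 F1 F2 FQ FW : ℕ) : Prop :=
  Nat.gcd T FQ = 1 ∧ Nat.gcd FQ FW = 1 ∧ F1 ≤ b1 ∧ F2 ≤ b2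

lemma fin_spec {T b1 b2 N c L1 L2 Q W : ℕ} (h : fin T b1 b2 N c L1 L2 Q W = true) :
    Fin T b1 b2 L1 L2 Q W ∧ c ≤ N := by
  unfold fin at h
  rw [band_iff, band_iff, band_iff, band_iff] at h
  obtain ⟨h1, h2, h3, h4, h5⟩ := h
  exact ⟨⟨Nat.eq_of_beq_eq_true h1, Nat.eq_of_beq_eq_true h2, Nat.le_of_ble_eq_true h4,
    Nat.le_of_ble_eq_true h5⟩, Nat.le_of_ble_eq_true h3⟩

lemma pas2_spec {T b1 b2 N R : ℕ} : ∀ k c d L1 L2 Q W,
    pas2 T b1 b2 N R k c d L1 L2 Q W = true →
    ∃ F1 F2 FQ FW, Fin T b1 b2 F1 F2 FQ FW ∧ L1 ≤ F1 ∧ L2 ≤ F2 ∧ Q ∣ FQ ∧ W ∣ FW ∧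
      el c d k ≤ N ∧ ∀ i < k, Good R F1 F2 FQ FW (el c d i) ∧
        Good R F1 F2 FQ FW (el c d i + 4) := by
  intro k
  induction k with
  | zero =>
    intro c d L1 L2 Q W h
    obtain ⟨h1, h2⟩ := fin_spec (show fin T b1 b2 N c L1 L2 Q W = true from h)
    exact ⟨L1, L2, Q, W, h1, le_refl _, le_refl _, dvd_refl _, dvd_refl _, h2,
      fun i hi => absurd hi (Nat.not_lt_zero _)⟩
  | succ k ih =>
    intro c d L1 L2 Q W h
    have h' : pas2 T b1 b2 N R k (nx c d) (d / 4096)
      (L1 ||| (Nat.gcd R c ||| Nat.gcd R (c + 4)))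
      (L2 ||| (c / Nat.gcd R c ||| (c + 4) / Nat.gcd R (c + 4)))
      (Q * (Nat.gcd R c * Nat.gcd R (c + 4)))
      (W * (c / Nat.gcd R c * (c / Nat.gcd R c - 1) *
        ((c + 4) / Nat.gcd R (c + 4) * ((c + 4) / Nat.gcd R (c + 4) - 1)))) = true := h
    obtain ⟨F1, F2, FQ, FW, hF, h1, h2, h3, h4, h5, h6⟩ := ih _ _ _ _ _ _ h'
    have a1 := Nat.left_le_or (n := L1) (m := Nat.gcd R c ||| Nat.gcd R (c + 4))
    have a2 := Nat.right_le_or (n := L1) (m := Nat.gcd R c ||| Nat.gcd R (c + 4))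
    have a3 := Nat.left_le_or (n := Nat.gcd R c) (m := Nat.gcd R (c + 4))
    have a4 := Nat.right_le_or (n := Nat.gcd R c) (m := Nat.gcd R (c + 4))
    have b1 := Nat.left_le_or (n := L2) (m := c / Nat.gcd R c ||| (c + 4) / Nat.gcd R (c + 4))
    have b2 := Nat.right_le_or (n := L2) (m := c / Nat.gcd R c ||| (c + 4) / Nat.gcd R (c + 4))
    have b3 := Nat.left_le_or (n := c / Nat.gcd R c) (m := (c + 4) / Nat.gcd R (c + 4))
    have b4 := Nat.right_le_or (n := c / Nat.gcd R c) (m := (c + 4) / Nat.gcd R (c + 4))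
    refine ⟨F1, F2, FQ, FW, hF, a1.trans h1, b1.trans h2, (dvd_mul_right _ _).trans h3,
      (dvd_mul_right _ _).trans h4, h5, ?_⟩
    intro i hi
    cases i with
    | zero =>
      refine ⟨⟨a3.trans (a2.trans h1), b3.trans (b2.trans h2), ?_, ?_⟩,
        ⟨a4.trans (a2.trans h1), b4.trans (b2.trans h2), ?_, ?_⟩⟩
      · exact ((dvd_mul_right _ _).trans (dvd_mul_left _ Q)).trans h3
      · exact ((dvd_mul_right _ _).trans (dvd_mul_left _ W)).trans h4
      · exact ((dvd_mul_left _ _).trans (dvd_mul_left _ Q)).trans h3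
      · exact ((dvd_mul_left _ _).trans (dvd_mul_left _ W)).trans h4
    | succ i => exact h6 i (by omega)

/-- The numbers which pass are cyclic. -/
lemma isCyc_of_good {B T P M F1 F2 FQ FW x : ℕ} (hT : ∀ q, q.Prime → q < B → q ∣ T)
    (hP : ∀ q, q.Prime → q < B ^ 2 → q ∣ P) (hF : Fin T (B ^ 2 - 1) (B ^ 4 - 1) F1 F2 FQ FW)
    (hB : 1 < B) (hx : 1 < x) (hxM : x ∣ M) (h : Good (P % M) F1 F2 FQ FW x) : IsCyc x := by
  obtain ⟨f1, f2, f3, f4⟩ := hF
  obtain ⟨g1, g2, g3, g4⟩ := h
  have hgcd : Nat.gcd (P % M) x = Nat.gcd P x := by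
    have h1 : (P % M) % x = P % x := Nat.mod_mod_of_dvd P hxM
    rw [Nat.gcd_comm (P % M) x, Nat.gcd_rec x (P % M), h1, ← Nat.gcd_rec, Nat.gcd_comm]
  rw [hgcd] at g1 g2 g3 g4
  set q := Nat.gcd P x with hq
  set p := x / q with hp
  have hB2 : 0 < B ^ 2 := by positivity
  have hB4 : 0 < B ^ 4 := by positivity
  have hqx : q ∣ x := Nat.gcd_dvd_right P x
  have hq0 : 0 < q := Nat.pos_of_dvd_of_pos hqx (by omega)
  have hxe : x = q * p := (Nat.mul_div_cancel' hqx).symm
  have hqT : Nat.Coprime T q := Nat.Coprime.coprime_dvd_right g3 f1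
  have hqW : Nat.Coprime q (p * (p - 1)) :=
    Nat.Coprime.coprime_dvd_right g4 (Nat.Coprime.coprime_dvd_left g3 f2)
  have hqB : q < B ^ 2 := by omega
  have hpB : p < B ^ 4 := by omega
  have hp0 : 0 < p := by
    rcases Nat.eq_zero_or_pos p with h0 | h0
    · rw [h0, mul_zero] at hxe; omega
    · exact h0
  by_cases hq1 : q = 1
  · have hpx : x = p := by rw [hxe, hq1, one_mul]
    apply isCyc_of_prime
    apply prime_of_no_small (B := B ^ 2) (by omega) (by omega)
    · rw [hpx, ← pow_mul]; exact hpB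
    · intro r hr hrB hrx
      have h1 : r ∣ q := Nat.dvd_gcd (hP r hr hrB) hrx
      rw [hq1] at h1
      exact hr.one_lt.ne' (Nat.dvd_one.1 h1)
  · have hqp : q.Prime := by
      apply prime_of_no_small (B := B) hq1 hq0 hqB
      intro r hr hrB hrq
      have h1 : r ∣ Nat.gcd T q := Nat.dvd_gcd (hT r hr hrB) hrq
      rw [hqT] at h1
      exact hr.one_lt.ne' (Nat.dvd_one.1 h1)
    have hnp : ¬ q ∣ p * (p - 1) := (Nat.Prime.coprime_iff_not_dvd hqp).1 hqW
    have hnp1 : ¬ q ∣ p := fun h => hnp (dvd_mul_of_dvd_left h _)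
    have hnp2 : ¬ q ∣ p - 1 := fun h => hnp (dvd_mul_of_dvd_right h _)
    have hp1 : p ≠ 1 := by
      intro h0
      rw [h0] at hnp2
      exact hnp2 (dvd_zero _)
    have hsm : ∀ r, r.Prime → r < B ^ 2 → ¬ r ∣ p := by
      intro r hr hrB hrp
      have h1 : r ∣ q := Nat.dvd_gcd (hP r hr hrB) (by rw [hxe]; exact dvd_mul_of_dvd_right hrp _)
      have h2 := (Nat.prime_dvd_prime_iff_eq hr hqp).1 h1
      rw [h2] at hrp
      exact hnp1 hrp
    have hpp : p.Prime := by
      apply prime_of_no_small (B := B ^ 2) hp1 hp0 _ hsm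
      rw [← pow_mul]; exact hpB
    have hlt : q < p := by
      by_contra hcon
      push Not at hcon
      exact hsm p hpp (by omega) (dvd_refl p)
    rw [hxe]
    exact isCyc_mul hqp hpp hlt hnp2

lemma one_spec {B T P n r : ℕ} (hT : ∀ q, q.Prime → q < B → q ∣ T)
    (hP : ∀ q, q.Prime → q < B ^ 2 → q ∣ P) (hB : 1 < B) (hn : 0 < n)
    (h : one T (B ^ 2 - 1) (B ^ 4 - 1) P n r = true) : 14 ≤ cousinCount n := by
  unfold one at h
  rw [force_eq] at h
  unfold one' at h
  have et : Nat.mul n (Nat.mul n n) = n ^ 3 := by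
    show n * (n * n) = n ^ 3
    ring
  rw [et] at h
  set c := Nat.add (Nat.add (n ^ 3) (Nat.add 1 (Nat.mod (Nat.add 6 (Nat.mul 17 (n ^ 3))) 18)))
        (Nat.mul 18 (Nat.mod r 4096)) with hc
  have hc' : c = n ^ 3 + (1 + (6 + 17 * n ^ 3) % 18) + 18 * (r % 4096) := rfl
  have hn3 : 0 < n ^ 3 := by positivity
  obtain ⟨F1, F2, FQ, FW, hF, -, -, -, -, h5, h6⟩ := pas2_spec 14 c (r / 4096) 0 0 1 1 h
  obtain ⟨-, h7⟩ := pas1_spec 14 c (r / 4096) 1
  set M := pas1 14 c (r / 4096) 1 with hM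
  have hN : el c (r / 4096) 14 ≤ (n + 1) ^ 3 := h5
  have hmono := el_strictMono c (r / 4096)
  have hcard := card_le_cousinCount (n := n) ((Finset.range 14).image (el c (r / 4096))) (by
    intro m hm
    obtain ⟨i, hi, rfl⟩ := Finset.mem_image.1 hm
    have hi' := Finset.mem_range.1 hi
    have hmod : el c (r / 4096) i % 18 = 7 := by
      rw [el_mod, hc']; omega
    have h0 : c ≤ el c (r / 4096) i := by
      have := hmono.monotone (Nat.zero_le i)
      rwa [el_zero] at this
    have h1 : n ^ 3 < el c (r / 4096) i := by omega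
    have h13 : el c (r / 4096) i + 4 < (n + 1) ^ 3 := by
      have h2 : el c (r / 4096) i < el c (r / 4096) 14 := hmono hi'
      have hmod' : el c (r / 4096) 14 % 18 = 7 := by rw [el_mod, hc']; omega
      omega
    obtain ⟨g1, g2⟩ := h6 i hi'
    have hd := h7 i hi'
    have hcyc1 : IsCyc (el c (r / 4096) i) :=
      isCyc_of_good hT hP hF hB (by omega) ((dvd_mul_right _ _).trans hd) g1
    have hcyc2 : IsCyc (el c (r / 4096) i + 4) :=
      isCyc_of_good hT hP hF hB (by omega) ((dvd_mul_left _ _).trans hd) g2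
    refine ⟨h1, h13, hcyc1, hcyc2, ?_, ?_, ?_⟩
    · exact not_isCyc_even (by omega) (by omega)
    · exact not_isCyc_nine (by omega)
    · exact not_isCyc_even (by omega) (by omega))
  rw [Finset.card_image_of_injective _ hmono.injective, Finset.card_range] at hcard
  exact hcard

lemma many_spec {B T P : ℕ} (hT : ∀ q, q.Prime → q < B → q ∣ T)
    (hP : ∀ q, q.Prime → q < B ^ 2 → q ∣ P) (hB : 1 < B) : ∀ k n d, 0 < n →
    many T (B ^ 2 - 1) (B ^ 4 - 1) P k n d = true →
    ∀ m, n ≤ m → m < n + k → 14 ≤ cousinCount m := by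
  intro k
  induction k with
  | zero => intro n d _ _ m h1 h2; omega
  | succ k ih =>
    intro n d hn h m h1 h2
    have h' : band (one T (B ^ 2 - 1) (B ^ 4 - 1) P n
      (d % 374144419156711147060143317175368453031918731001856))
      (many T (B ^ 2 - 1) (B ^ 4 - 1) P k (n + 1)
      (d / 374144419156711147060143317175368453031918731001856)) = true := h
    rw [band_iff] at h'
    rcases Nat.lt_or_ge n m with h3 | h3
    · exact ih (n + 1) _ (by omega) h'.2 m h3 (by omega)
    · have : m = n := by omega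
      subst this
      exact one_spec hT hP hB hn h'.1

lemma mlist_spec {B T P : ℕ} (hT : ∀ q, q.Prime → q < B → q ∣ T)
    (hP : ∀ q, q.Prime → q < B ^ 2 → q ∣ P) (hB : 1 < B) (k : ℕ) : ∀ L n, 0 < n →
    mlist T (B ^ 2 - 1) (B ^ 4 - 1) P k L n = true →
    ∀ m, n ≤ m → m < n + k * L.length → 14 ≤ cousinCount m := by
  intro L
  induction L with
  | nil => intro n _ _ m h1 h2; simp at h2; omega
  | cons d L ih =>
    intro n hn h m h1 h2
    have h' : band (many T (B ^ 2 - 1) (B ^ 4 - 1) P k n d)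
      (force (n + k) (mlist T (B ^ 2 - 1) (B ^ 4 - 1) P k L)) = true := h
    rw [band_iff, force_eq] at h'
    rcases Nat.lt_or_ge m (n + k) with h3 | h3
    · exact many_spec hT hP hB k n d hn h'.1 m h1 h3
    · apply ih (n + k) (by omega) h'.2 m h3
      rw [List.length_cons] at h2
      have : k * (L.length + 1) = k * L.length + k := by ring
      omega

/-- The form used with the product of the primes below `2^20`. -/
lemma block {L : List ℕ} {k n : ℕ} (hn : 0 < n)
    (h : force P20 (fun P => mlist T10 1048575 1099511627775 P k L n) = true) :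
    ∀ m, n ≤ m → m < n + k * L.length → 14 ≤ cousinCount m := by
  rw [force_eq] at h
  exact mlist_spec (B := 2 ^ 10) T10_spec (by norm_num; exact P20_spec) (by norm_num) k L n hn h

end Pool.Agent.MP_2543de_nt.Least
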