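import Pool.Agent.Lib.MP_2543de_nt.Full.Small
import Pool.Agent.Lib.MP_2543de_nt.Least.Test

/-!
The values of `C(n)` for small `n`: the exact values for `n ≤ 5` and fourteen pairs for each `n`
from `6` to `101`.
-/

namespace Pool.Agent.MP_2543de_nt.Least

open Finset Full

/-- a fast count of the numbers below `k` coprime to `m` -/
noncomputable def cnt (m k : ℕ) : ℕ :=
  Nat.rec 0 (fun i ih => Nat.add (Bool.rec 0 1 (Nat.beq (Nat.gcd m i) 1)) ih) k

lemma cnt_eq (m : ℕ) : ∀ k, cnt m k = ((Finset.range k).filter (fun i => Nat.Coprime m i)).card := by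
  intro k
  induction k with
  | zero => rfl
  | succ k ih =>
    have h : cnt m (k + 1) = Bool.rec 0 1 (Nat.beq (Nat.gcd m k) 1) + cnt m k := rfl
    rw [h, ih, Finset.range_add_one, Finset.filter_insert]
    by_cases hc : Nat.Coprime m k
    · have hb : Nat.beq (Nat.gcd m k) 1 = true := by rw [hc]; rfl
      rw [if_pos hc, hb, Finset.card_insert_of_notMem (by simp)]
      exact Nat.add_comm _ _
    · have hb : Nat.beq (Nat.gcd m k) 1 = false := by
        cases h' : Nat.beq (Nat.gcd m k) 1
        · rfl
        · exact absurd (Nat.eq_of_beq_eq_true h') hc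
      rw [if_neg hc, hb]
      exact Nat.zero_add _

lemma cnt_totient (m : ℕ) : cnt m m = Nat.totient m := cnt_eq m m

/-- a fast test for cyclic numbers -/
noncomputable def tst (m : ℕ) : Bool := Nat.beq (Nat.gcd m (cnt m m)) 1

lemma tst_iff {m : ℕ} (hm : 0 < m) : tst m = true ↔ IsCyc m := by
  unfold tst IsCyc
  rw [cnt_totient]
  constructor
  · intro h
    exact ⟨hm, Nat.eq_of_beq_eq_true h⟩
  · rintro ⟨-, h⟩
    rw [h]; rfl

/-- the set of the first members of the pairs, with the fast test -/
lemma pairSet_eq (n : ℕ) : pairSet n = (Finset.Ioo (n ^ 3) ((n + 1) ^ 3)).filter (fun m =>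
    m + 4 < (n + 1) ^ 3 ∧ tst m = true ∧ tst (m + 4) = true ∧ tst (m + 1) = false ∧
    tst (m + 2) = false ∧ tst (m + 3) = false) := by
  have hf : ∀ m, 0 < m → (tst m = false ↔ ¬ IsCyc m) := by
    intro m hm
    rw [← tst_iff hm]
    cases tst m <;> simp
  unfold pairSet
  apply Finset.filter_congr
  intro m hm
  have h0 := (Finset.mem_Ioo.1 hm).1
  rw [tst_iff (by omega : 0 < m), tst_iff (by omega : 0 < m + 4), hf (m + 1) (by omega),
    hf (m + 2) (by omega), hf (m + 3) (by omega)]

lemma count_two : cousinCount 2 = 1 := by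
  rw [cousinCount_eq, pairSet_eq]; decide +kernel

lemma count_three : cousinCount 3 = 3 := by
  rw [cousinCount_eq, pairSet_eq]; decide +kernel

lemma count_four : 8 ≤ cousinCount 4 := by
  rw [cousinCount_eq, pairSet_eq]; decide +kernel

lemma count_five : cousinCount 5 = 8 := by
  rw [cousinCount_eq, pairSet_eq]; decide +kernel

/-- the fast test for the members of a list -/
noncomputable def tstL (N M : ℕ) (L : List ℕ) : Bool :=
  List.rec true (fun m _ ih => band (band (Nat.ble (Nat.succ N) m) (band (Nat.ble (Nat.add m 5) M)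
    (band (Nat.beq (Nat.mod m 2) 1) (band (tst m) (band (tst (Nat.add m 4))
      (Nat.beq (Bool.rec 0 1 (tst (Nat.add m 2))) 0)))))) ih) L

lemma tstL_spec {N M : ℕ} : ∀ L : List ℕ, tstL N M L = true → ∀ m ∈ L, N < m ∧ m + 4 < M ∧
    m % 2 = 1 ∧ tst m = true ∧ tst (m + 4) = true ∧ tst (m + 2) = false := by
  intro L
  induction L with
  | nil => intro _ m hm; simp at hm
  | cons a L ih =>
    intro h m hm
    have h' : band (band (Nat.ble (Nat.succ N) a) (band (Nat.ble (Nat.add a 5) M)
      (band (Nat.beq (Nat.mod a 2) 1) (band (tst a) (band (tst (Nat.add a 4))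
      (Nat.beq (Bool.rec 0 1 (tst (Nat.add a 2))) 0)))))) (tstL N M L) = true := h
    rw [band_iff] at h'
    rcases List.mem_cons.1 hm with rfl | hm
    · have h1 := h'.1
      rw [band_iff, band_iff, band_iff, band_iff, band_iff] at h1
      obtain ⟨a1, a2, a3, a4, a5, a6⟩ := h1
      have b1 := Nat.le_of_ble_eq_true a1
      have b2 : m + 5 ≤ M := Nat.le_of_ble_eq_true a2
      refine ⟨b1, by omega, Nat.eq_of_beq_eq_true a3, a4, a5, ?_⟩
      cases hh : tst (m + 2)
      · rfl
      · exfalso
        have e : Nat.beq (Bool.rec 0 1 (tst (m + 2))) 0 = true := a6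
        rw [hh] at e
        exact absurd e (by decide)
    · exact ih h'.2 m hm

/-- Explicit pairs. -/
lemma of_list {n : ℕ} (L : List ℕ) (h1 : L.Pairwise (· < ·)) (h14 : L.length = 14)
    (h : ∀ m ∈ L, n ^ 3 < m ∧ m + 4 < (n + 1) ^ 3 ∧ IsCyc m ∧ IsCyc (m + 4) ∧
      ¬ IsCyc (m + 1) ∧ ¬ IsCyc (m + 2) ∧ ¬ IsCyc (m + 3)) : 14 ≤ cousinCount n := by
  have hnd : L.Nodup := h1.imp (fun hab => ne_of_lt hab)
  have := card_le_cousinCount (n := n) L.toFinset (by
    intro m hm
    exact h m (List.mem_toFinset.1 hm))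
  rwa [List.toFinset_card_of_nodup hnd, h14] at this

lemma of_tst {n : ℕ} (L : List ℕ) (h1 : L.Pairwise (· < ·)) (h14 : L.length = 14)
    (h : tstL (n ^ 3) ((n + 1) ^ 3) L = true) : 14 ≤ cousinCount n := by
  refine of_list L h1 h14 ?_
  intro m hm
  obtain ⟨a1, a2, a3, a4, a5, a6⟩ := tstL_spec L h m hm
  have h0 : 2 ≤ m := by
    by_contra hcon
    have : m = 1 := by omega
    have hn : n ^ 3 = 0 := by omega
    have hn0 : n = 0 := by
      rcases Nat.eq_zero_or_pos n with h | h
      · exact h
      · have : 0 < n ^ 3 := by positivity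
        omega
    subst hn0
    omega
  refine ⟨a1, a2, (tst_iff (by omega)).1 a4, (tst_iff (by omega)).1 a5, ?_, ?_, ?_⟩
  · exact not_isCyc_even (by omega) (by omega)
  · intro hc
    rw [(tst_iff (by omega)).2 hc] at a6
    exact absurd a6 (by decide)
  · exact not_isCyc_even (by omega) (by omega)

lemma tiny (n : ℕ) (h6 : 6 ≤ n) (h12 : n < 12) : 14 ≤ cousinCount n := by
  interval_cases n
  · exact of_tst [217, 223, 229, 235, 251, 259, 277, 283, 295, 299, 303, 307, 313, 331]
      (by decide) rfl (by decide +kernel)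
  · exact of_tst [349, 367, 373, 379, 397, 403, 415, 427, 439, 451, 457, 463, 469, 481]
      (by decide) rfl (by decide +kernel)
  · exact of_tst [523, 537, 541, 547, 553, 565, 573, 577, 583, 595, 607, 613, 619, 631]
      (by decide) rfl (by decide +kernel)
  · exact of_tst [739, 745, 753, 757, 763, 781, 789, 799, 811, 817, 823, 835, 839, 853]
      (by decide) rfl (by decide +kernel)
  · exact of_tst [1003, 1009, 1033, 1063, 1069, 1073, 1087, 1093, 1099, 1105, 1111, 1117, 1129, 1135]
      (by decide) rfl (by decide +kernel)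
  · exact of_tst [1339, 1353, 1357, 1363, 1387, 1393, 1411, 1423, 1429, 1433, 1447, 1453, 1459, 1465]
      (by decide) rfl (by decide +kernel)

/-- the product of the primes below `256` -/
def P8 : ℕ := 64266330917908644872330635228106713310880186591609208114244758680898150367880703152525200743234420230

/-- a test for primes below `65536` -/
def Pt (p : ℕ) : Prop := 1 < p ∧ ((p < 65536 ∧ Nat.gcd p P8 = 1) ∨
  (p < 256 ∧ Nat.gcd p 30030 = 1) ∨ p ∈ [3, 5, 7, 11, 13])

instance (p : ℕ) : Decidable (Pt p) := by unfold Pt; infer_instance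

/-- a test for cyclic numbers with at most two prime factors, given as `a * b` -/
def Gd (a b : ℕ) : Prop := Pt b ∧ (a = 1 ∨ (Pt a ∧ a < b ∧ (b - 1) % a ≠ 0))

instance (a b : ℕ) : Decidable (Gd a b) := by unfold Gd; infer_instance

lemma P8_spec : ∀ q, q.Prime → q < 256 → q ∣ P8 := by
  intro q hq hlt
  have h : ∀ q < 256, (∀ d < q, 2 ≤ d → ¬ d ∣ q) → 2 ≤ q → q ∣ P8 := by decide +kernel
  refine h q hlt (fun d hd h2 hdq => ?_) hq.two_le
  rcases (Nat.dvd_prime hq).1 hdq with h3 | h3 <;> omega

lemma Pt_prime {p : ℕ} (h : Pt p) : p.Prime := by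
  obtain ⟨h1, h2 | h2 | h2⟩ := h
  · apply prime_of_no_small (B := 256) (by omega) (by omega) (by omega)
    intro r hr hrB hrp
    have h3 : r ∣ Nat.gcd p P8 := Nat.dvd_gcd hrp (P8_spec r hr hrB)
    rw [h2.2] at h3
    exact hr.one_lt.ne' (Nat.dvd_one.1 h3)
  · apply prime_of_no_small (B := 16) (by omega) (by omega) (by omega)
    intro r hr hrB hrp
    have h4 : r ∣ 30030 := by
      interval_cases r <;> first | (norm_num; done) | exact absurd hr (by norm_num)
    have h3 : r ∣ Nat.gcd p 30030 := Nat.dvd_gcd hrp h4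
    rw [h2.2] at h3
    exact hr.one_lt.ne' (Nat.dvd_one.1 h3)
  · simp only [List.mem_cons, List.not_mem_nil, or_false] at h2
    rcases h2 with h | h | h | h | h <;> subst h <;> norm_num

lemma Gd_cyc {a b : ℕ} (h : Gd a b) : IsCyc (a * b) := by
  obtain ⟨h1, h2 | ⟨h2, h3, h4⟩⟩ := h
  · subst h2
    rw [one_mul]
    exact isCyc_of_prime (Pt_prime h1)
  · exact isCyc_mul (Pt_prime h2) (Pt_prime h1) h3 (fun hd => h4 (Nat.mod_eq_zero_of_dvd hd))

/-- the certificate for one `n` -/
def Crt (n : ℕ) (L : List (ℕ × ℕ × ℕ × ℕ)) : Prop :=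
  L.length = 14 ∧ (L.map (fun t => t.1 * t.2.1)).Pairwise (· < ·) ∧
  ∀ t ∈ L, n ^ 3 < t.1 * t.2.1 ∧ t.2.2.1 * t.2.2.2 < (n + 1) ^ 3 ∧
    t.1 * t.2.1 + 4 = t.2.2.1 * t.2.2.2 ∧ t.1 * t.2.1 % 18 = 7 ∧ Gd t.1 t.2.1 ∧
    Gd t.2.2.1 t.2.2.2

instance (n : ℕ) (L : List (ℕ × ℕ × ℕ × ℕ)) : Decidable (Crt n L) := by
  unfold Crt; infer_instance

lemma Crt_spec {n : ℕ} {L : List (ℕ × ℕ × ℕ × ℕ)} (hn : 0 < n) (h : Crt n L) :
    14 ≤ cousinCount n := by
  obtain ⟨h1, h2, h3⟩ := h
  have hn3 : 0 < n ^ 3 := by positivity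
  refine of_list (L.map (fun t => t.1 * t.2.1)) h2 (by rw [List.length_map, h1]) ?_
  intro m hm
  obtain ⟨t, ht, rfl⟩ := List.mem_map.1 hm
  obtain ⟨a1, a2, a3, a4, a5, a6⟩ := h3 t ht
  have hc := Gd_cyc a6
  rw [← a3] at hc a2
  refine ⟨a1, a2, Gd_cyc a5, hc, ?_, ?_, ?_⟩
  · exact not_isCyc_even (by omega) (by omega)
  · exact not_isCyc_nine (by omega)
  · exact not_isCyc_even (by omega) (by omega)

lemma crt12 : 14 ≤ cousinCount 12 := Crt_spec (by norm_num) (L := [
    (5, 347, 37, 47), (1, 1753, 7, 251), (1, 1789, 11, 163), (13, 139, 1, 1811), (19, 97, 1,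
    1847), (1, 1861, 5, 373), (1, 1879, 7, 269), (7, 271, 1, 1901), (5, 383, 19, 101), (1,
    1933, 13, 149), (11, 179, 1, 1973), (1, 1987, 11, 181), (29, 71, 1, 2063), (31, 67, 1,
    2081)]) (by decide +kernel)

lemma crt13 : 14 ≤ cousinCount 13 := Crt_spec (by norm_num) (L := [
    (1, 2203, 1, 2207), (1, 2239, 1, 2243), (1, 2293, 1, 2297), (1, 2311, 5, 463), (1, 2347,
    1, 2351), (41, 59, 1, 2423), (1, 2437, 1, 2441), (1, 2473, 1, 2477), (47, 53, 5, 499),
    (13, 193, 7, 359), (5, 509, 1, 2549), (11, 233, 17, 151), (23, 113, 19, 137), (1, 2617, 1,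
    2621)]) (by decide +kernel)

lemma crt14 : 14 ≤ cousinCount 14 := Crt_spec (by norm_num) (L := [
    (1, 2797, 1, 2801), (5, 563, 1, 2819), (1, 2833, 1, 2837), (37, 79, 1, 2927), (11, 269, 1,
    2963), (13, 229, 11, 271), (5, 599, 1, 2999), (23, 131, 7, 431), (7, 433, 5, 607), (1,
    3049, 43, 71), (1, 3067, 37, 83), (5, 617, 1, 3089), (29, 107, 13, 239), (1, 3229, 53, 61)]) (by decide +kernel)

lemma crt15 : 14 ≤ cousinCount 15 := Crt_spec (by norm_num) (L := [
    (7, 487, 1, 3413), (23, 149, 47, 73), (1, 3463, 1, 3467), (1, 3499, 31, 113), (1, 3517, 7,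
    503), (37, 97, 1, 3593), (1, 3607, 23, 157), (1, 3643, 7, 521), (7, 523, 5, 733), (13,
    283, 29, 127), (1, 3697, 1, 3701), (5, 743, 1, 3719), (1, 3733, 37, 101), (7, 541, 17,
    223)]) (by decide +kernel)

lemma crt16 : 14 ≤ cousinCount 16 := Crt_spec (by norm_num) (L := [
    (1, 4111, 5, 823), (1, 4129, 1, 4133), (47, 89, 53, 79), (1, 4219, 41, 103), (19, 223, 1,
    4241), (7, 613, 5, 859), (31, 139, 19, 227), (1, 4327, 61, 71), (13, 337, 5, 877), (5,
    887, 23, 193), (61, 73, 1, 4457), (1, 4507, 13, 347), (19, 241, 1, 4583), (1, 4597, 43,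
    107)]) (by decide +kernel)

lemma crt17 : 14 ≤ cousinCount 17 := Crt_spec (by norm_num) (L := [
    (11, 449, 1, 4943), (1, 4993, 19, 263), (47, 107, 7, 719), (5, 1013, 37, 137), (1, 5119,
    47, 109), (11, 467, 53, 97), (7, 739, 31, 167), (29, 179, 5, 1039), (1, 5209, 13, 401),
    (1, 5227, 1, 5231), (5, 1049, 29, 181), (19, 277, 23, 229), (13, 409, 17, 313), (53, 101,
    11, 487)]) (by decide +kernel)

lemma crt18 : 14 ≤ cousinCount 18 := Crt_spec (by norm_num) (L := [
    (1, 5839, 1, 5843), (1, 5857, 1, 5861), (71, 83, 1, 5897), (19, 313, 11, 541), (5, 1193,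
    47, 127), (31, 193, 1, 5987), (13, 463, 19, 317), (1, 6037, 7, 863), (1, 6073, 59, 103),
    (41, 149, 1, 6113), (11, 557, 1, 6131), (1, 6163, 7, 881), (1, 6199, 1, 6203), (1, 6217,
    1, 6221)]) (by decide +kernel)

lemma crt19 : 14 ≤ cousinCount 19 := Crt_spec (by norm_num) (L := [
    (5, 1373, 1, 6869), (1, 6883, 71, 97), (7, 991, 11, 631), (19, 367, 1, 6977), (1, 6991, 5,
    1399), (43, 163, 1, 7013), (1, 7027, 79, 89), (31, 229, 1, 7103), (11, 647, 1, 7121), (23,
    311, 17, 421), (1, 7207, 1, 7211), (1, 7243, 1, 7247), (53, 137, 5, 1453), (29, 251, 1,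
    7283)]) (by decide +kernel)

lemma crt20 : 14 ≤ cousinCount 20 := Crt_spec (by norm_num) (L := [
    (1, 8017, 13, 617), (5, 1607, 1, 8039), (1, 8053, 7, 1151), (1, 8089, 1, 8093), (17, 479,
    1, 8147), (7, 1171, 59, 139), (1, 8233, 1, 8237), (1, 8269, 1, 8273), (1, 8287, 1, 8291),
    (19, 439, 5, 1669), (13, 643, 1, 8363), (47, 179, 19, 443), (1, 8467, 43, 197), (5, 1697,
    13, 653)]) (by decide +kernel)

lemma crt21 : 14 ≤ cousinCount 21 := Crt_spec (by norm_num) (L := [
    (1, 9277, 1, 9281), (1, 9349, 47, 199), (5, 1877, 41, 229), (1, 9403, 23, 409), (11, 863,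
    1, 9497), (13, 733, 1, 9533), (1, 9547, 1, 9551), (5, 1913, 7, 1367), (1, 9619, 1, 9623),
    (17, 569, 1, 9677), (71, 137, 37, 263), (5, 1949, 1, 9749), (13, 751, 1, 9767), (41, 239,
    1, 9803)]) (by decide +kernel)

lemma crt22 : 14 ≤ cousinCount 22 := Crt_spec (by norm_num) (L := [
    (1, 10663, 1, 10667), (11, 971, 5, 2137), (7, 1531, 71, 151), (1, 10753, 31, 347), (1,
    10789, 43, 251), (101, 107, 19, 569), (7, 1549, 1, 10847), (7, 1567, 1, 10973), (1, 10987,
    29, 379), (73, 151, 1, 11027), (1, 11113, 1, 11117), (1, 11149, 19, 587), (5, 2237, 67,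
    167), (17, 659, 7, 1601)]) (by decide +kernel)

lemma crt23 : 14 ≤ cousinCount 23 := Crt_spec (by norm_num) (L := [
    (89, 137, 1, 12197), (7, 1747, 13, 941), (37, 331, 1, 12251), (71, 173, 11, 1117), (97,
    127, 1, 12323), (1, 12373, 1, 12377), (1, 12409, 1, 12413), (29, 431, 1, 12503), (1,
    12517, 19, 659), (1, 12553, 29, 433), (7, 1801, 1, 12611), (47, 269, 1, 12647), (31, 409,
    11, 1153), (1, 12697, 13, 977)]) (by decide +kernel)

lemma crt24 : 14 ≤ cousinCount 24 := Crt_spec (by norm_num) (L := [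
    (1, 13831, 5, 2767), (11, 1259, 7, 1979), (1, 13903, 1, 13907), (53, 263, 73, 191), (17,
    821, 23, 607), (7, 1999, 1, 13997), (1, 14011, 5, 2803), (1, 14029, 1, 14033), (1, 14083,
    1, 14087), (67, 211, 79, 179), (1, 14173, 1, 14177), (17, 839, 11, 1297), (1, 14281, 5,
    2857), (79, 181, 1, 14303)]) (by decide +kernel)

lemma crt25 : 14 ≤ cousinCount 25 := Crt_spec (by norm_num) (L := [
    (1, 15649, 11, 1423), (1, 15667, 1, 15671), (5, 3137, 29, 541), (41, 383, 113, 139), (7,
    2251, 1, 15761), (17, 929, 1, 15797), (97, 163, 5, 3163), (11, 1439, 71, 223), (1, 15919,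
    1, 15923), (1, 15937, 19, 839), (1, 15973, 13, 1229), (7, 2287, 67, 239), (5, 3209, 11,
    1459), (1, 16063, 1, 16067)]) (by decide +kernel)

lemma crt26 : 14 ≤ cousinCount 26 := Crt_spec (by norm_num) (L := [
    (73, 241, 1, 17597), (5, 3533, 1, 17669), (1, 17683, 23, 769), (1, 17737, 113, 157), (7,
    2539, 29, 613), (1, 17791, 5, 3559), (11, 1619, 47, 379), (1, 17827, 11, 1621), (1, 17863,
    17, 1051), (7, 2557, 1, 17903), (13, 1381, 1, 17957), (1, 17989, 19, 947), (1, 18043, 1,
    18047), (1, 18061, 5, 3613)]) (by decide +kernel)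

lemma crt27 : 14 ≤ cousinCount 27 := Crt_spec (by norm_num) (L := [
    (5, 3947, 1, 19739), (1, 19753, 23, 859), (29, 683, 11, 1801), (1, 19843, 89, 223), (103,
    193, 59, 337), (31, 643, 1, 19937), (19, 1051, 1, 19973), (1, 20023, 7, 2861), (13, 1543,
    1, 20063), (17, 1181, 43, 467), (5, 4019, 101, 199), (1, 20113, 1, 20117), (41, 491, 5,
    4027), (1, 20149, 7, 2879)]) (by decide +kernel)

lemma crt28 : 14 ≤ cousinCount 28 := Crt_spec (by norm_num) (L := [
    (11, 1997, 127, 173), (5, 4397, 11, 1999), (1, 22003, 59, 373), (1, 22093, 19, 1163), (1,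
    22111, 5, 4423), (1, 22129, 1, 22133), (1, 22147, 17, 1303), (7, 3169, 11, 2017), (17,
    1307, 71, 313), (1, 22273, 1, 22277), (7, 3187, 53, 421), (83, 269, 137, 163), (13, 1723,
    43, 521), (29, 773, 7, 3203)]) (by decide +kernel)

lemma crt29 : 14 ≤ cousinCount 29 := Crt_spec (by norm_num) (L := [
    (31, 787, 13, 1877), (53, 461, 7, 3491), (1, 24469, 1, 24473), (47, 521, 19, 1289), (137,
    179, 1, 24527), (7, 3511, 47, 523), (5, 4919, 17, 1447), (151, 163, 103, 239), (17, 1451,
    1, 24671), (5, 4937, 7, 3527), (19, 1303, 11, 2251), (1, 24793, 137, 181), (7, 3547, 19,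
    1307), (1, 24847, 1, 24851)]) (by decide +kernel)

lemma crt30 : 14 ≤ cousinCount 30 := Crt_spec (by norm_num) (L := [
    (113, 239, 1, 27011), (1, 27061, 5, 5413), (43, 631, 11, 2467), (101, 269, 29, 937), (31,
    877, 1, 27191), (7, 3889, 19, 1433), (1, 27241, 5, 5449), (1, 27259, 137, 199), (1, 27277,
    1, 27281), (1, 27367, 101, 271), (5, 5477, 61, 449), (67, 409, 1, 27407), (23, 1193, 13,
    2111), (1, 27457, 7, 3923)]) (by decide +kernel)

lemma crt31 : 14 ≤ cousinCount 31 := Crt_spec (by norm_num) (L := [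
    (83, 359, 17, 1753), (1, 29833, 1, 29837), (23, 1301, 1, 29927), (31, 967, 7, 4283), (1,
    30013, 13, 2309), (59, 509, 5, 6007), (151, 199, 41, 733), (107, 281, 1, 30071), (1,
    30139, 43, 701), (53, 569, 1, 30161), (109, 277, 1, 30197), (1, 30211, 5, 6043), (5, 6053,
    1, 30269), (11, 2753, 31, 977)]) (by decide +kernel)

lemma crt32 : 14 ≤ cousinCount 32 := Crt_spec (by norm_num) (L := [
    (1, 32803, 53, 619), (1, 32839, 1, 32843), (47, 701, 83, 397), (1, 32983, 1, 32987), (1,
    33091, 5, 6619), (113, 293, 1, 33113), (13, 2551, 17, 1951), (1, 33181, 5, 6637), (1,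
    33199, 1, 33203), (59, 563, 139, 239), (11, 3023, 7, 4751), (19, 1753, 1, 33311), (1,
    33343, 1, 33347), (73, 457, 5, 6673)]) (by decide +kernel)

lemma crt33 : 14 ≤ cousinCount 33 := Crt_spec (by norm_num) (L := [
    (157, 229, 41, 877), (1, 36007, 1, 36011), (1, 36061, 5, 7213), (109, 331, 1, 36083), (1,
    36097, 13, 2777), (23, 1571, 1, 36137), (1, 36187, 1, 36191), (101, 359, 1, 36263), (1,
    36313, 23, 1579), (163, 223, 1, 36353), (41, 887, 37, 983), (13, 2803, 11, 3313), (1,
    36493, 1, 36497), (1, 36583, 1, 36587)]) (by decide +kernel)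

lemma crt34 : 14 ≤ cousinCount 34 := Crt_spec (by norm_num) (L := [
    (139, 283, 1, 39341), (11, 3581, 5, 7879), (1, 39409, 11, 3583), (1, 39499, 1, 39503),
    (43, 919, 1, 39521), (5, 7907, 19, 2081), (37, 1069, 7, 5651), (29, 1367, 41, 967), (17,
    2333, 5, 7933), (1, 39679, 7, 5669), (1, 39733, 79, 503), (1, 39769, 31, 1283), (11, 3617,
    1, 39791), (7, 5689, 1, 39827)]) (by decide +kernel)

lemma small34 (n : ℕ) (h1 : 12 ≤ n) (h2 : n < 35) : 14 ≤ cousinCount n := by
  interval_cases n
  · exact crt12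
  · exact crt13
  · exact crt14
  · exact crt15
  · exact crt16
  · exact crt17
  · exact crt18
  · exact crt19
  · exact crt20
  · exact crt21
  · exact crt22
  · exact crt23
  · exact crt24
  · exact crt25
  · exact crt26
  · exact crt27
  · exact crt28
  · exact crt29
  · exact crt30
  · exact crt31
  · exact crt32
  · exact crt33
  · exact crt34

/-- offsets -/
def datS : List ℕ := [0x402f00100700600b00000100600400500600600b00c00600200d00200100000300700100400000b00101600b00000b00601100b00500100b00000400300900400d00700c00100600400000600100c00600700300300000d00500800c01300201200900200100c00800600100400200400700100200900600401000200000600200600200900300900000300900200900400000700700400100400200600200900300900700200500600700800500602900000300700900400400600d00400600000d00500300900200600700900600000301b00400100200600100000300200400600900400500600c00300400c00700100401300600900200100502200e00400b00000600900b00f00600200e00100200100a00100c00600700400100600700201500600000400701a00201100100400600001300d00700400300700c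02e00600200702700d00000300900400000201c00e00400500300200900400700800900200600200500600700600100400001300400300200600200900600400e00500e00101a00000300000401500600400900800502900200600601b00900700800500100f00b00200400100500100200300400700b00000100200300900201a00500800a00d00000900600b00500e01a00900400c00900200600601d00701800100c00b00600700600400200b00000400300c00600000d00601400400600e00600000301300201100900e00400100a00d00900a00400600c00600100000900100b00c00201a00400000e00601500000900100100401400100900900b00c00100e00700600c00b00500300400201f00200400400800c01000400c00200300000600000900900900b00700400200300701a00a00600400102200e00400100400900700302200200400600000501d00601500500800a00100400100000300500100100700400600000900300e00000300200600700400100600c01000901001800700100a00300200200300101800700400600200700400400900300900000d00100000400101100d00e00001501000200400700800301d02201000200b01400600900400100400000600500001a01a01300200600400700600000d01100100600900001700500e01300d00400c00601b00100700500a00900300200200d0070150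0000600400100700b00500901300600b00901100700101a00700600200200901100200400801100201500600200200300000900c00200600900100000b00600900200200300200201800100401a00901b00400100500e00300000d00000400502201700500d01300000300200700301400500700e00400100400702900100000900301100100301d00e01a00700b00000800200600900000d00a00100b00100c00703002800d00501f01000f00b00700600400e00c00400602500400d00200400b01400300400e00800400400000800001200c00900200800000200400700300900000b01500400500600100c00600500202900e00100400c00700e00600b00e00500100200e00700400100c01301500c01000500b01000000301e00d00500d00400f00601500000300500900601200b00100e00403700800200100700c01202200200901e01200000b00202100700700d01300000400400100600400000900600c01200200600200900700400100c01800900200601100100b00e01600700d01301600702b00a00600600200400e00b00001201600100800900600c00600500802d00601d00600001200c00b01100601800c00b02900200600400501500c01000800c00400e00100c01600d00a00d00200200601800102001300e01600900800e00500801900d01400b00601b00701300d00201001400300201101200000300100600200600500400101500901601500000b00701e00300400000301b02a00900300700b01101301a00802200200401601800600100a00900d00c027002007]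

lemma T5_spec : ∀ q, q.Prime → q < 2 ^ 5 → q ∣ 200560490130 := by
  intro q hq hlt
  interval_cases q <;> first | (norm_num; done) | exact absurd hq (by norm_num)

lemma chkS : mlist 200560490130 1023 1048575 T10 67 datS 35 = true := by decide +kernel

lemma small101 (n : ℕ) (h1 : 35 ≤ n) (h2 : n < 102) : 14 ≤ cousinCount n :=
  mlist_spec (B := 2 ^ 5) T5_spec (by norm_num; exact T10_spec) (by norm_num) 67 datS 35
    (by norm_num) chkS n h1 (by
      have : datS.length = 1 := rfl
      rw [this]; omega)

end Pool.Agent.MP_2543de_nt.Least
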